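import Pool.Agent.helper35.MR.SpecA

/-!
# Project mr, module S2
-/

set_option autoImplicit false

open Finset

namespace Pool.Agent.helper35.MR

open Pool.Agent.RRank

theorem S2_sub1 {ι K : Type} [Fintype ι] [Field K] (M : ι → ι → ι → K) (u u' v w : ι → K) :
    ev3 M (u - u') v w = ev3 M u v w - ev3 M u' v w := by
  unfold ev3
  simp only [← Finset.sum_sub_distrib, Pi.sub_apply]
  refine Finset.sum_congr rfl fun i _ => Finset.sum_congr rfl fun j _ =>
    Finset.sum_congr rfl fun k _ => ?_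
  ring

theorem S2_sub2 {ι K : Type} [Fintype ι] [Field K] (M : ι → ι → ι → K) (u v v' w : ι → K) :
    ev3 M u (v - v') w = ev3 M u v w - ev3 M u v' w := by
  unfold ev3
  simp only [← Finset.sum_sub_distrib, Pi.sub_apply]
  refine Finset.sum_congr rfl fun i _ => Finset.sum_congr rfl fun j _ =>
    Finset.sum_congr rfl fun k _ => ?_
  ring

theorem S2_sub3 {ι K : Type} [Fintype ι] [Field K] (M : ι → ι → ι → K) (u v w w' : ι → K) :
    ev3 M u v (w - w') = ev3 M u v w - ev3 M u v w' := by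
  unfold ev3
  simp only [← Finset.sum_sub_distrib, Pi.sub_apply]
  refine Finset.sum_congr rfl fun i _ => Finset.sum_congr rfl fun j _ =>
    Finset.sum_congr rfl fun k _ => ?_
  ring

theorem S2_ev {ι K : Type} [Fintype ι] [DecidableEq ι] [Field K] (M : ι → ι → ι → K) (i j k : ι) :
    ev3 M (Pi.single i 1) (Pi.single j 1) (Pi.single k 1) = M i j k := by
  unfold ev3
  rw [Finset.sum_eq_single i, Finset.sum_eq_single j, Finset.sum_eq_single k]
  · simp
  · intro b _ hb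
    simp [Pi.single_eq_of_ne hb]
  · intro h
    exact absurd (Finset.mem_univ _) h
  · intro b _ hb
    simp [Pi.single_eq_of_ne hb]
  · intro h
    exact absurd (Finset.mem_univ _) h
  · intro b _ hb
    simp [Pi.single_eq_of_ne hb]
  · intro h
    exact absurd (Finset.mem_univ _) h

theorem S2_top {K : Type} [Field K] {l : ℕ} (U : Submodule K (Fin l → K))
    (h : Module.finrank K U = l) (u : Fin l → K) : u ∈ U := by
  have : U = ⊤ := Submodule.eq_top_of_finrank_eq (by rw [h, Module.finrank_fin_fun])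
  rw [this]
  trivial

theorem S2_le {K : Type} [Field K] {l : ℕ} (U : Submodule K (Fin l → K)) :
    Module.finrank K U ≤ l := by
  have h := Submodule.finrank_le U
  rwa [Module.finrank_fin_fun] at h

theorem S2_sum {K : Type} [Field K] {l : ℕ} (i j : Fin l) :
    ∑ k, (Pi.single i (1 : K) - Pi.single j (1 : K) : Fin l → K) k = 0 := by
  simp [Finset.sum_sub_distrib]

theorem S2_M {K : Type} [Field K] (V : ℤ → ℤ → ℤ → K) (hV : OT3 V) (l : ℕ) (i j k : Fin l)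
    (x y z : ℤ) (h1 : cmp (3 * ((i : ℕ) : ℤ)) (3 * ((j : ℕ) : ℤ) + 1) = cmp x y)
    (h2 : cmp (3 * ((j : ℕ) : ℤ) + 1) (3 * ((k : ℕ) : ℤ) + 2) = cmp y z)
    (h3 : cmp (3 * ((i : ℕ) : ℤ)) (3 * ((k : ℕ) : ℤ) + 2) = cmp x z) :
    strictM V l i j k = V x y z :=
  hV _ _ _ _ _ _ h1 h2 h3

theorem S2_full (hMRG : MRG_stmt) (K : Type) [Field K] (V : ℤ → ℤ → ℤ → K) (hV : OT3 V)
    (hp : V 0 1 2 ≠ 0) (hpq : V 0 1 2 + V 2 1 0 ≠ 0) (h102 : V 1 0 2 = 0) (h201 : V 2 0 1 = 0)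
    (h021 : V 0 2 1 = 0) (h120 : V 1 2 0 = 0) (l : ℕ) (hl : 1 ≤ l) : Full3 (strictM V l) := by
  induction l, hl using Nat.le_induction with
  | base =>
    intro U₁ U₂ U₃ hdim
    rw [Fintype.card_fin] at hdim
    have d1 := S2_le U₁
    have d2 := S2_le U₂
    have d3 := S2_le U₃
    refine ⟨Pi.single 0 1, S2_top U₁ (by omega) _, Pi.single 0 1, S2_top U₂ (by omega) _,
      Pi.single 0 1, S2_top U₃ (by omega) _, ?_⟩
    rw [S2_ev, S2_M V hV 1 0 0 0 0 1 2 rfl rfl rfl]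
    exact hp
  | succ l hl ih =>
    intro U₁ U₂ U₃ hdim
    rw [Fintype.card_fin] at hdim
    by_contra hcon
    push Not at hcon
    have hm := hMRG K V hV l ih U₁ U₂ U₃ hdim hcon
    have d1 := S2_le U₁
    have d2 := S2_le U₂
    have d3 := S2_le U₃
    rcases Nat.lt_or_ge 1 l with hl2 | hl1
    · -- l ≥ 2
      obtain ⟨i0, hi0⟩ : ∃ i : Fin (l + 1), (i : ℕ) = 0 := ⟨⟨0, by omega⟩, rfl⟩
      obtain ⟨i1, hi1⟩ : ∃ i : Fin (l + 1), (i : ℕ) = 1 := ⟨⟨1, by omega⟩, rfl⟩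
      obtain ⟨i2, hi2⟩ : ∃ i : Fin (l + 1), (i : ℕ) = 2 := ⟨⟨2, by omega⟩, rfl⟩
      have hu := (hm (Pi.single i1 1 - Pi.single i2 1) (S2_sum _ _)).1
      have hv := (hm (Pi.single i0 1 - Pi.single i1 1) (S2_sum _ _)).2.1
      have hw := (hm (Pi.single i0 1 - Pi.single i1 1) (S2_sum _ _)).2.2
      have h := hcon _ hu _ hv _ hw
      simp only [S2_sub1, S2_sub2, S2_sub3, S2_ev] at h
      rw [S2_M V hV _ i1 i0 i0 2 0 1 (by rw [hi1, hi0]; rfl) (by rw [hi0]; rfl)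
          (by rw [hi1, hi0]; rfl),
        S2_M V hV _ i1 i0 i1 1 0 2 (by rw [hi1, hi0]; rfl) (by rw [hi1, hi0]; rfl)
          (by rw [hi1]; rfl),
        S2_M V hV _ i1 i1 i0 1 2 0 (by rw [hi1]; rfl) (by rw [hi1, hi0]; rfl)
          (by rw [hi1, hi0]; rfl),
        S2_M V hV _ i1 i1 i1 0 1 2 (by rw [hi1]; rfl) (by rw [hi1]; rfl)
          (by rw [hi1]; rfl),
        S2_M V hV _ i2 i0 i0 2 0 1 (by rw [hi2, hi0]; rfl) (by rw [hi0]; rfl)
          (by rw [hi2, hi0]; rfl),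
        S2_M V hV _ i2 i0 i1 2 0 1 (by rw [hi2, hi0]; rfl) (by rw [hi1, hi0]; rfl)
          (by rw [hi2, hi1]; rfl),
        S2_M V hV _ i2 i1 i0 2 1 0 (by rw [hi2, hi1]; rfl) (by rw [hi1, hi0]; rfl)
          (by rw [hi2, hi0]; rfl),
        S2_M V hV _ i2 i1 i1 2 0 1 (by rw [hi2, hi1]; rfl) (by rw [hi1]; rfl)
          (by rw [hi2, hi1]; rfl), h201, h102, h120] at h
      apply hpq
      linear_combination h
    · -- l = 1
      obtain rfl : l = 1 := by omega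
      have e01 : ∑ k, (Pi.single 0 (1 : K) - Pi.single 1 (1 : K) : Fin 2 → K) k = 0 := S2_sum 0 1
      obtain ⟨m1, m2, m3⟩ := hm (Pi.single 0 1 - Pi.single 1 1) e01
      have hcase : (Module.finrank K U₂ = 2 ∧ Module.finrank K U₃ = 2) ∨
          (Module.finrank K U₁ = 2 ∧ Module.finrank K U₃ = 2) ∨
          (Module.finrank K U₁ = 2 ∧ Module.finrank K U₂ = 2) := by omega
      rcases hcase with ⟨c2, c3⟩ | ⟨c1, c3⟩ | ⟨c1, c2⟩
      · have h := hcon _ m1 (Pi.single 0 1) (S2_top U₂ c2 _) (Pi.single 0 1) (S2_top U₃ c3 _)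
        rw [S2_sub1, S2_ev, S2_ev, S2_M V hV _ 0 0 0 0 1 2 rfl rfl rfl,
          S2_M V hV _ 1 0 0 2 0 1 rfl rfl rfl, h201, sub_zero] at h
        exact hp h
      · have h := hcon (Pi.single 1 1) (S2_top U₁ c1 _) _ m2 (Pi.single 1 1) (S2_top U₃ c3 _)
        rw [S2_sub2, S2_ev, S2_ev, S2_M V hV _ 1 0 1 1 0 2 rfl rfl rfl,
          S2_M V hV _ 1 1 1 0 1 2 rfl rfl rfl, h102, zero_sub, neg_eq_zero] at h
        exact hp h
      · have h := hcon (Pi.single 0 1) (S2_top U₁ c1 _) (Pi.single 1 1) (S2_top U₂ c2 _) _ m3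
        rw [S2_sub3, S2_ev, S2_ev, S2_M V hV _ 0 1 0 0 2 1 rfl rfl rfl,
          S2_M V hV _ 0 1 1 0 1 2 rfl rfl rfl, h021, zero_sub, neg_eq_zero] at h
        exact hp h

theorem S2 (hMRG : MRG_stmt) : S2_stmt := by
  intro K _ V hV hp hpq h102 h201 h021 h120 l hl
  exact ⟨fun i => 3 * ((i : ℕ) : ℤ), fun j => 3 * ((j : ℕ) : ℤ) + 1, fun k => 3 * ((k : ℕ) : ℤ) + 2,
    S2_full hMRG K V hV hp hpq h102 h201 h021 h120 l hl⟩

end Pool.Agent.helper35.MR
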