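import Pool.Agent.helper35.MR.SpecA
import Pool.Agent.helper70.MR.S2

/-!
# Project mr, module B1S
-/

set_option autoImplicit false

open Finset

namespace Pool.Agent.helper35.MR

open Pool.Agent.RRank

theorem B1S_M {K : Type} [Field K] (V : ℤ → ℤ → ℤ → K) (a b c : Ordering → K) (δ : K)
    (hB : BForm V a b c δ) (l : ℕ) (i j k : Fin l) (o1 o2 o3 : Ordering)
    (h1 : cmp (3 * ((i : ℕ) : ℤ)) (3 * ((j : ℕ) : ℤ) + 1) = o1)
    (h2 : cmp (3 * ((j : ℕ) : ℤ) + 1) (3 * ((k : ℕ) : ℤ) + 2) = o2)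
    (h3 : cmp (3 * ((i : ℕ) : ℤ)) (3 * ((k : ℕ) : ℤ) + 2) = o3) :
    strictM V l i j k = a o1 + b o2 + c o3 := by
  unfold strictM
  rw [hB, h1, h2, h3, if_neg (by omega), add_zero]

theorem B1S_1 {K : Type} [Field K] (V : ℤ → ℤ → ℤ → K) (hV : OT3 V)
    (hp : V 0 1 2 ≠ 0) : Full3 (strictM V 1) := by
  intro U₁ U₂ U₃ hdim
  rw [Fintype.card_fin] at hdim
  have d1 := S2_le U₁
  have d2 := S2_le U₂
  have d3 := S2_le U₃
  refine ⟨Pi.single 0 1, S2_top U₁ (by omega) _, Pi.single 0 1, S2_top U₂ (by omega) _,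
    Pi.single 0 1, S2_top U₃ (by omega) _, ?_⟩
  rw [S2_ev, S2_M V hV 1 0 0 0 0 1 2 rfl rfl rfl]
  exact hp

theorem B1S_2 (hMRG : MRG_stmt) {K : Type} [Field K] (V : ℤ → ℤ → ℤ → K) (a b c : Ordering → K)
    (δ : K) (hV : OT3 V) (hB : BForm V a b c δ) (ha : a .lt ≠ a .gt) (hb : b .lt ≠ b .gt)
    (hp : V 0 1 2 ≠ 0) : Full3 (strictM V 2) := by
  intro U₁ U₂ U₃ hdim
  rw [Fintype.card_fin] at hdim
  by_contra hcon
  push Not at hcon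
  have hm := hMRG K V hV 1 (B1S_1 V hV hp) U₁ U₂ U₃ hdim hcon
  have d1 := S2_le U₁
  have d2 := S2_le U₂
  have d3 := S2_le U₃
  have e01 : ∑ k, (Pi.single 0 (1 : K) - Pi.single 1 (1 : K) : Fin 2 → K) k = 0 := S2_sum 0 1
  obtain ⟨m1, m2, m3⟩ := hm (Pi.single 0 1 - Pi.single 1 1) e01
  have hcase : (Module.finrank K U₂ = 2 ∧ Module.finrank K U₃ = 2) ∨
      (Module.finrank K U₁ = 2 ∧ Module.finrank K U₃ = 2) ∨
      (Module.finrank K U₁ = 2 ∧ Module.finrank K U₂ = 2) := by omega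
  rcases hcase with ⟨c2, c3⟩ | ⟨c1, c3⟩ | ⟨c1, c2⟩
  · have h := hcon _ m1 (Pi.single 0 1) (S2_top U₂ c2 _) (Pi.single 1 1) (S2_top U₃ c3 _)
    rw [S2_sub1, S2_ev, S2_ev, B1S_M V a b c δ hB 2 0 0 1 .lt .lt .lt rfl rfl rfl,
      B1S_M V a b c δ hB 2 1 0 1 .gt .lt .lt rfl rfl rfl] at h
    apply ha
    linear_combination h
  · have h := hcon (Pi.single 0 1) (S2_top U₁ c1 _) _ m2 (Pi.single 0 1) (S2_top U₃ c3 _)
    rw [S2_sub2, S2_ev, S2_ev, B1S_M V a b c δ hB 2 0 0 0 .lt .lt .lt rfl rfl rfl,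
      B1S_M V a b c δ hB 2 0 1 0 .lt .gt .lt rfl rfl rfl] at h
    apply hb
    linear_combination h
  · have h := hcon (Pi.single 0 1) (S2_top U₁ c1 _) (Pi.single 1 1) (S2_top U₂ c2 _) _ m3
    rw [S2_sub3, S2_ev, S2_ev, B1S_M V a b c δ hB 2 0 1 0 .lt .gt .lt rfl rfl rfl,
      B1S_M V a b c δ hB 2 0 1 1 .lt .lt .lt rfl rfl rfl] at h
    apply hb
    linear_combination -h

theorem B1S_3 (hMRG : MRG_stmt) {K : Type} [Field K] (V : ℤ → ℤ → ℤ → K) (a b c : Ordering → K)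
    (δ : K) (hV : OT3 V) (hB : BForm V a b c δ) (ha : a .lt ≠ a .gt) (hb : b .lt ≠ b .gt)
    (hc : c .lt ≠ c .gt) (hp : V 0 1 2 ≠ 0) : Full3 (strictM V 3) := by
  intro U₁ U₂ U₃ hdim
  rw [Fintype.card_fin] at hdim
  by_contra hcon
  push Not at hcon
  have hm := hMRG K V hV 2 (B1S_2 hMRG V a b c δ hV hB ha hb hp) U₁ U₂ U₃ hdim hcon
  have d1 := S2_le U₁
  have d2 := S2_le U₂
  have d3 := S2_le U₃
  have e01 : ∑ k, (Pi.single 0 (1 : K) - Pi.single 1 (1 : K) : Fin 3 → K) k = 0 := S2_sum 0 1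
  obtain ⟨m1, m2, m3⟩ := hm (Pi.single 0 1 - Pi.single 1 1) e01
  have hcase : (Module.finrank K U₁ = 3) ∨ (Module.finrank K U₂ = 3) ∨
      (Module.finrank K U₃ = 3) := by omega
  rcases hcase with c1 | c2 | c3
  · have h := hcon (Pi.single 0 1) (S2_top U₁ c1 _) _ m2 _ m3
    rw [S2_sub2, S2_sub3, S2_sub3, S2_ev, S2_ev, S2_ev, S2_ev,
      B1S_M V a b c δ hB 3 0 0 0 .lt .lt .lt rfl rfl rfl,
      B1S_M V a b c δ hB 3 0 0 1 .lt .lt .lt rfl rfl rfl,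
      B1S_M V a b c δ hB 3 0 1 0 .lt .gt .lt rfl rfl rfl,
      B1S_M V a b c δ hB 3 0 1 1 .lt .lt .lt rfl rfl rfl] at h
    apply hb
    linear_combination h
  · have h := hcon _ m1 (Pi.single 0 1) (S2_top U₂ c2 _) _ m3
    rw [S2_sub1, S2_sub3, S2_sub3, S2_ev, S2_ev, S2_ev, S2_ev,
      B1S_M V a b c δ hB 3 0 0 0 .lt .lt .lt rfl rfl rfl,
      B1S_M V a b c δ hB 3 0 0 1 .lt .lt .lt rfl rfl rfl,
      B1S_M V a b c δ hB 3 1 0 0 .gt .lt .gt rfl rfl rfl,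
      B1S_M V a b c δ hB 3 1 0 1 .gt .lt .lt rfl rfl rfl] at h
    apply hc
    linear_combination h
  · have h := hcon _ m1 _ m2 (Pi.single 2 1) (S2_top U₃ c3 _)
    rw [S2_sub1, S2_sub2, S2_sub2, S2_ev, S2_ev, S2_ev, S2_ev,
      B1S_M V a b c δ hB 3 0 0 2 .lt .lt .lt rfl rfl rfl,
      B1S_M V a b c δ hB 3 0 1 2 .lt .lt .lt rfl rfl rfl,
      B1S_M V a b c δ hB 3 1 0 2 .gt .lt .lt rfl rfl rfl,
      B1S_M V a b c δ hB 3 1 1 2 .lt .lt .lt rfl rfl rfl] at h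
    apply ha
    linear_combination h

theorem B1S (hMRG : MRG_stmt) : B1S_stmt := by
  intro K _ V a b c δ hV hB ha hb hc hp
  exact ⟨fun i => 3 * ((i : ℕ) : ℤ), fun j => 3 * ((j : ℕ) : ℤ) + 1, fun k => 3 * ((k : ℕ) : ℤ) + 2,
    B1S_3 hMRG V a b c δ hV hB ha hb hc hp⟩

end Pool.Agent.helper35.MR
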