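import Pool.Agent.helper35.MR.SpecA

/-!
# Project mr, module KA
-/

set_option autoImplicit false

open Finset

namespace Pool.Agent.helper35.MR

open Pool.Agent.RRank

theorem KA_pos (K : Type) [Field K] (V : ℤ → ℤ → ℤ → K) (hV : OT3 V)
    (h : ∃ x₀ y₀ z₀ : ℤ, x₀ < z₀ ∧ y₀ < z₀ ∧ V x₀ y₀ z₀ ≠ 0) :
    ∃ x₀ y₀ z₀ : ℤ, x₀ < z₀ ∧ y₀ < z₀ ∧ z₀ < 10 ∧ V x₀ y₀ z₀ ≠ 0 := by
  obtain ⟨x, y, z, hx, hy, hne⟩ := h
  have c1 : cmp x z = .lt := (cmp_eq_lt_iff _ _).2 hx
  have c2 : cmp y z = .lt := (cmp_eq_lt_iff _ _).2 hy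
  rcases lt_trichotomy x y with h | h | h
  · refine ⟨0, 1, 2, by norm_num, by norm_num, by norm_num, ?_⟩
    rw [← hV x y z 0 1 2]
    · exact hne
    · rw [(cmp_eq_lt_iff _ _).2 h]
      rfl
    · rw [c2]
      rfl
    · rw [c1]
      rfl
  · refine ⟨0, 0, 2, by norm_num, by norm_num, by norm_num, ?_⟩
    rw [← hV x y z 0 0 2]
    · exact hne
    · rw [(cmp_eq_eq_iff _ _).2 h]
      rfl
    · rw [c2]
      rfl
    · rw [c1]
      rfl
  · refine ⟨1, 0, 2, by norm_num, by norm_num, by norm_num, ?_⟩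
    rw [← hV x y z 1 0 2]
    · exact hne
    · rw [(cmp_eq_gt_iff _ _).2 h]
      rfl
    · rw [c2]
      rfl
    · rw [c1]
      rfl

theorem KA (hCHB : CHB_stmt) (hLI : LI_stmt) (hEXT : EXT_stmt) (hOPT : OPT_stmt) (hKT : KT_stmt) :
    KA_stmt := by
  intro K _ V a b c κ hV hK hκ hcase hpos n
  obtain ⟨x₀, y₀, z₀, hx, hy, hz, hne⟩ := KA_pos K V hV hpos
  refine hOPT K V n (kposXY x₀) (kposXY y₀) (kposZ z₀) ?_
  obtain ⟨l1, l2, -⟩ := hLI K n
  refine hCHB K (Option (Fin n)) _ bas bas basZ l1 l1 l2 ?_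
  set t : Option (Fin n) → Option (Fin n) → Option (Fin n) → K := fun i j k =>
    ev3 (fun i j k => V (kposXY x₀ i) (kposXY y₀ j) (kposZ z₀ k)) (bas i) (bas j) (basZ k) with ht
  obtain ⟨T0, T1, T2, T3, T4, T5, T6, T7⟩ := hKT K V a b c κ hK n x₀ y₀ z₀ hx hy hz t
    (fun i j k => rfl)
  by_contra hF
  obtain ⟨s, a', b', c', hVi⟩ := hEXT K n t κ hκ T7 hF
  have e3 : ∀ j, s j = 0 → (b .lt - b .gt) + κ * a' j = 0 := by
    intro j hj
    have h := hVi.E3 j j (by rw [hj]; decide) (by rw [hj]; decide)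
    rw [T6, if_pos rfl, if_pos rfl] at h
    exact h
  have e2 : ∀ i, s i = 1 → (c .lt - c .gt) + κ * b' i = 0 := by
    intro i hi
    have h := hVi.E2 i i (by rw [hi]; decide) (by rw [hi]; decide)
    rw [T5, if_pos rfl, if_pos rfl] at h
    exact h
  have e6 : ∀ k, s k ≠ 2 → a' k * (c .lt - c .gt) + b' k * (b .lt - b .gt) = 0 := by
    intro k hk
    have h := hVi.E6 k hk
    rw [T3, zero_add] at h
    have h1 : ∑ i, a' i * t (some i) none (some k) = a' k * (c .lt - c .gt) := by
      rw [Finset.sum_eq_single k]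
      · rw [T5, if_pos rfl]
      · intro i _ hi
        rw [T5, if_neg hi, mul_zero]
      · intro hn
        exact absurd (Finset.mem_univ k) hn
    have h2 : ∑ j, b' j * t none (some j) (some k) = b' k * (b .lt - b .gt) := by
      rw [Finset.sum_eq_single k]
      · rw [T6, if_pos rfl]
      · intro i _ hi
        rw [T6, if_neg hi, mul_zero]
      · intro hn
        exact absurd (Finset.mem_univ k) hn
    rw [h1, h2] at h
    exact h
  have hab : (∀ i, a' i = 0) ∧ ∀ i, b' i = 0 := by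
    rcases hcase with ⟨hb, hc⟩ | ⟨hb, hc⟩
    · have hb' : b .lt - b .gt ≠ 0 := sub_ne_zero.2 hb
      have hc' : c .lt - c .gt ≠ 0 := sub_ne_zero.2 hc
      have hs0 : ∀ k, s k ≠ 0 := by
        intro k hk
        have h1 := e6 k (by rw [hk]; decide)
        have h2 : b' k = 0 := hVi.sb k (by rw [hk]; decide)
        rw [h2, zero_mul, add_zero] at h1
        have h3 : a' k = 0 := (mul_eq_zero.1 h1).resolve_right hc'
        have h4 := e3 k hk
        rw [h3, mul_zero, add_zero] at h4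
        exact hb' h4
      have hs1 : ∀ k, s k ≠ 1 := by
        intro k hk
        have h1 := e6 k (by rw [hk]; decide)
        have h2 : a' k = 0 := hVi.sa k (by rw [hk]; decide)
        rw [h2, zero_mul, zero_add] at h1
        have h3 : b' k = 0 := (mul_eq_zero.1 h1).resolve_right hb'
        have h4 := e2 k hk
        rw [h3, mul_zero, add_zero] at h4
        exact hc' h4
      exact ⟨fun i => hVi.sa i (hs0 i), fun i => hVi.sb i (hs1 i)⟩
    · constructor
      · intro i
        by_cases hi : s i = 0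
        · have h := e3 i hi
          rw [hb, sub_self, zero_add] at h
          exact (mul_eq_zero.1 h).resolve_left hκ
        · exact hVi.sa i hi
      · intro i
        by_cases hi : s i = 1
        · have h := e2 i hi
          rw [hc, sub_self, zero_add] at h
          exact (mul_eq_zero.1 h).resolve_left hκ
        · exact hVi.sb i hi
  have h7 := hVi.E7
  simp only [hab.1, hab.2, T3, zero_mul, mul_zero, Finset.sum_const_zero, add_zero] at h7
  rw [T0] at h7
  exact hne h7

end Pool.Agent.helper35.MR
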