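import Pool.Agent.helper35.MR.SpecA
import Pool.Agent.helper70.MR.S2

/-!
# Project mr, module S1
-/

set_option autoImplicit false

open Finset

namespace Pool.Agent.helper35.MR

open Pool.Agent.RRank

theorem S1_full (hMRG : MRG_stmt) (K : Type) [Field K] (V : ℤ → ℤ → ℤ → K) (hV : OT3 V)
    (hp : V 0 1 2 ≠ 0) (hR : V 1 0 2 + V 1 2 0 - V 0 2 1 - V 2 0 1 ≠ 0)
    (l : ℕ) (hl : 1 ≤ l) : Full3 (strictM V l) := by
  induction l, hl using Nat.le_induction with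
  | base =>
    intro U₁ U₂ U₃ hdim
    rw [Fintype.card_fin] at hdim
    have d1 := S2_le U₁
    have d2 := S2_le U₂
    have d3 := S2_le U₃
    refine ⟨Pi.single 0 1, S2_top U₁ (by omega) _, Pi.single 0 1, S2_top U₂ (by omega) _,
      Pi.single 0 1, S2_top U₃ (by omega) _, ?_⟩
    rw [S2_ev, S2_M V hV 1 0 0 0 0 1 2 rfl rfl rfl]
    exact hp
  | succ l hl ih =>
    intro U₁ U₂ U₃ hdim
    rw [Fintype.card_fin] at hdim
    by_contra hcon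
    push Not at hcon
    have hm := hMRG K V hV l ih U₁ U₂ U₃ hdim hcon
    obtain ⟨i0, hi0⟩ : ∃ i : Fin (l + 1), (i : ℕ) = 0 := ⟨⟨0, by omega⟩, rfl⟩
    obtain ⟨i1, hi1⟩ : ∃ i : Fin (l + 1), (i : ℕ) = 1 := ⟨⟨1, by omega⟩, rfl⟩
    obtain ⟨hu, hv, hw⟩ := hm (Pi.single i0 1 - Pi.single i1 1) (S2_sum _ _)
    have h := hcon _ hu _ hv _ hw
    simp only [S2_sub1, S2_sub2, S2_sub3, S2_ev] at h
    rw [S2_M V hV _ i0 i0 i0 0 1 2 (by rw [hi0]; rfl) (by rw [hi0]; rfl) (by rw [hi0]; rfl),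
      S2_M V hV _ i0 i0 i1 0 1 2 (by rw [hi0]; rfl) (by rw [hi1, hi0]; rfl)
        (by rw [hi1, hi0]; rfl),
      S2_M V hV _ i0 i1 i0 0 2 1 (by rw [hi1, hi0]; rfl) (by rw [hi1, hi0]; rfl)
        (by rw [hi0]; rfl),
      S2_M V hV _ i0 i1 i1 0 1 2 (by rw [hi1, hi0]; rfl) (by rw [hi1]; rfl)
        (by rw [hi1, hi0]; rfl),
      S2_M V hV _ i1 i0 i0 2 0 1 (by rw [hi1, hi0]; rfl) (by rw [hi0]; rfl)
        (by rw [hi1, hi0]; rfl),
      S2_M V hV _ i1 i0 i1 1 0 2 (by rw [hi1, hi0]; rfl) (by rw [hi1, hi0]; rfl)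
        (by rw [hi1]; rfl),
      S2_M V hV _ i1 i1 i0 1 2 0 (by rw [hi1]; rfl) (by rw [hi1, hi0]; rfl)
        (by rw [hi1, hi0]; rfl),
      S2_M V hV _ i1 i1 i1 0 1 2 (by rw [hi1]; rfl) (by rw [hi1]; rfl)
        (by rw [hi1]; rfl)] at h
    apply hR
    linear_combination h

theorem S1 (hMRG : MRG_stmt) : S1_stmt := by
  intro K _ V hV hp hR l hl
  exact ⟨fun i => 3 * ((i : ℕ) : ℤ), fun j => 3 * ((j : ℕ) : ℤ) + 1, fun k => 3 * ((k : ℕ) : ℤ) + 2,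
    S1_full hMRG K V hV hp hR l hl⟩

end Pool.Agent.helper35.MR
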