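import Pool.Agent.helper35.MR.SpecB

set_option autoImplicit false

open Finset

namespace Pool.Agent.helper35.MR

open Pool.Agent.RRank

section PF

variable {K : Type} [Field K] {l : ℕ}

theorem PF_ev4 (A B : Fin l → Fin l → K) (κ : K) (u v w q : Fin l → K) :
    ev4 (fun i j k m => A i j * B k m + κ) u v w q = ev2 A u v * ev2 B w q +
      κ * (ev2 (fun _ _ : Fin l => (1 : K)) u v * ev2 (fun _ _ : Fin l => (1 : K)) w q) := by
  unfold ev4 ev2
  rw [Finset.sum_mul, Finset.sum_mul, Finset.mul_sum, ← Finset.sum_add_distrib]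
  refine Finset.sum_congr rfl fun i _ => ?_
  rw [Finset.sum_mul, Finset.sum_mul, Finset.mul_sum, ← Finset.sum_add_distrib]
  refine Finset.sum_congr rfl fun j _ => ?_
  rw [Finset.mul_sum, Finset.mul_sum, Finset.mul_sum, ← Finset.sum_add_distrib]
  refine Finset.sum_congr rfl fun k _ => ?_
  rw [Finset.mul_sum, Finset.mul_sum, Finset.mul_sum, ← Finset.sum_add_distrib]
  refine Finset.sum_congr rfl fun m _ => ?_
  ring

theorem PF_rank_add (A B : Matrix (Fin l) (Fin l) K) : (A + B).rank ≤ A.rank + B.rank := by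
  unfold Matrix.rank
  refine le_trans ?_ (Submodule.finrank_add_le_finrank_add_finrank _ _)
  refine Submodule.finrank_mono ?_
  rintro _ ⟨v, rfl⟩
  rw [Matrix.mulVecLin_apply, Matrix.add_mulVec]
  exact Submodule.add_mem_sup ⟨v, rfl⟩ ⟨v, rfl⟩

theorem PF_rank (X : Fin l → Fin l → K) (μ : K) (hX : (Matrix.of X).det ≠ 0) :
    l ≤ (Matrix.of (fun i j => X i j - μ)).rank + 1 := by
  have h1 : (Matrix.of X).rank = l := by
    have h7 : IsUnit (Matrix.of X) := (Matrix.isUnit_iff_isUnit_det _).2 (isUnit_iff_ne_zero.2 hX)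
    rw [Matrix.rank_of_isUnit _ h7, Fintype.card_fin]
  have h2 : Matrix.of X = Matrix.of (fun i j => X i j - μ) +
      Matrix.vecMulVec (fun _ : Fin l => μ) (fun _ : Fin l => (1 : K)) := by
    ext i j
    simp [Matrix.vecMulVec_apply]
  have h3 := PF_rank_add (Matrix.of (fun i j => X i j - μ))
    (Matrix.vecMulVec (fun _ : Fin l => μ) (fun _ : Fin l => (1 : K)))
  rw [← h2, h1] at h3
  have h4 := Matrix.rank_vecMulVec_le (fun _ : Fin l => μ) (fun _ : Fin l => (1 : K))
  omega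

/-- one side -/
theorem PF_side (hRB : RB_stmt) (X Y : Fin l → Fin l → K) (κ : K)
    (hX : (Matrix.of X).det ≠ 0) (hY : (Matrix.of Y).det ≠ 0)
    (U₁ U₂ U₃ U₄ : Submodule K (Fin l → K))
    (hd : 3 * l < Module.finrank K U₁ + Module.finrank K U₂ + Module.finrank K U₃ +
      Module.finrank K U₄)
    (h0 : ∀ u ∈ U₁, ∀ v ∈ U₂, ∀ w ∈ U₃, ∀ q ∈ U₄, ev2 X u v * ev2 Y w q +
      κ * (ev2 (fun _ _ : Fin l => (1 : K)) u v * ev2 (fun _ _ : Fin l => (1 : K)) w q) = 0) :
    Module.finrank K U₁ + Module.finrank K U₂ ≤ l + 1 := by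
  have hle : ∀ U : Submodule K (Fin l → K), Module.finrank K U ≤ l := by
    intro U
    have := U.finrank_le
    simpa using this
  have h1 := hle U₁
  have h2 := hle U₂
  have hnz : ∃ w ∈ U₃, ∃ q ∈ U₄, ev2 Y w q ≠ 0 := by
    by_contra hcon
    push Not at hcon
    have h3 := hRB K l _ U₃ U₄ hcon
    have h4 : (Matrix.of Y).rank = l := by
      have h7 : IsUnit (Matrix.of Y) := (Matrix.isUnit_iff_isUnit_det _).2 (isUnit_iff_ne_zero.2 hY)
      rw [Matrix.rank_of_isUnit _ h7, Fintype.card_fin]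
    omega
  obtain ⟨w, hw, q, hq, hne⟩ := hnz
  set μ : K := -(κ * ev2 (fun _ _ : Fin l => (1 : K)) w q) / ev2 Y w q with hμ
  have h3 : ∀ u ∈ U₁, ∀ v ∈ U₂, ev2 (fun i j => X i j - μ) u v = 0 := by
    intro u hu v hv
    have h4 := h0 u hu v hv w hw q hq
    have h5 : ev2 (fun i j => X i j - μ) u v = ev2 X u v - μ * ev2 (fun _ _ : Fin l => (1 : K)) u v := by
      unfold ev2
      rw [Finset.mul_sum, ← Finset.sum_sub_distrib]
      refine Finset.sum_congr rfl fun i _ => ?_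
      rw [Finset.mul_sum, ← Finset.sum_sub_distrib]
      refine Finset.sum_congr rfl fun j _ => ?_
      ring
    rw [h5]
    have h6 : μ * ev2 Y w q = -(κ * ev2 (fun _ _ : Fin l => (1 : K)) w q) := by
      rw [hμ]
      field_simp
    refine mul_right_cancel₀ hne ?_
    rw [zero_mul]
    linear_combination h4 - (ev2 (fun _ _ : Fin l => (1 : K)) u v) * h6
  have h4 := hRB K l _ U₁ U₂ h3
  have h5 := PF_rank X μ hX
  omega

end PF

theorem PF (hRB : RB_stmt) : PF_stmt := by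
  intro K _ l hl X Y κ hX hY U₁ U₂ U₃ U₄ hd
  rw [Fintype.card_fin] at hd
  by_contra hcon
  push Not at hcon
  have h0 : ∀ u ∈ U₁, ∀ v ∈ U₂, ∀ w ∈ U₃, ∀ q ∈ U₄, ev2 X u v * ev2 Y w q +
      κ * (ev2 (fun _ _ : Fin l => (1 : K)) u v * ev2 (fun _ _ : Fin l => (1 : K)) w q) = 0 := by
    intro u hu v hv w hw q hq
    have := hcon u hu v hv w hw q hq
    rwa [PF_ev4] at this
  have h1 := PF_side hRB X Y κ hX hY U₁ U₂ U₃ U₄ hd h0
  have h2 := PF_side hRB Y X κ hY hX U₃ U₄ U₁ U₂ (by omega) (by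
    intro u hu v hv w hw q hq
    have := h0 w hw q hq u hu v hv
    linear_combination this)
  omega

end Pool.Agent.helper35.MR
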