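import Pool.Agent.helper35.MR.SpecB

set_option autoImplicit false

open Finset

namespace Pool.Agent.helper35.MR

open Pool.Agent.RRank

section WCF

variable {K : Type} [Field K] {l : ℕ}

/-- the matrix of `=` -/
def WCF_I (i j : Fin l) : K := if i = j then 1 else 0

/-- the matrix of `<` -/
def WCF_U (i j : Fin l) : K := if i < j then 1 else 0

/-- the matrix of ones -/
def WCF_J (_ _ : Fin l) : K := 1

theorem WCF_ev4_mul (A B : Fin l → Fin l → K) (u v w q : Fin l → K) :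
    ev4 (fun i j k m => A i j * B k m) u v w q = ev2 A u v * ev2 B w q := by
  unfold ev4 ev2
  rw [Finset.sum_mul]
  refine Finset.sum_congr rfl fun i _ => ?_
  rw [Finset.sum_mul]
  refine Finset.sum_congr rfl fun j _ => ?_
  rw [Finset.mul_sum]
  refine Finset.sum_congr rfl fun k _ => ?_
  rw [Finset.mul_sum]
  refine Finset.sum_congr rfl fun m _ => ?_
  ring

theorem WCF_ev4_add (M N : Fin l → Fin l → Fin l → Fin l → K) (u v w q : Fin l → K) :
    ev4 (fun i j k m => M i j k m + N i j k m) u v w q = ev4 M u v w q + ev4 N u v w q := by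
  unfold ev4
  simp only [add_mul, Finset.sum_add_distrib]

theorem WCF_ev2_add (A B : Fin l → Fin l → K) (u v : Fin l → K) :
    ev2 (fun i j => A i j + B i j) u v = ev2 A u v + ev2 B u v := by
  unfold ev2
  simp only [add_mul, Finset.sum_add_distrib]

theorem WCF_ev2_mul (c : K) (A : Fin l → Fin l → K) (u v : Fin l → K) :
    ev2 (fun i j => c * A i j) u v = c * ev2 A u v := by
  unfold ev2
  simp only [Finset.mul_sum, mul_assoc]

theorem WCF_ev2_single (A : Fin l → Fin l → K) (i j : Fin l) :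
    ev2 A (Pi.single i 1) (Pi.single j 1) = A i j := by
  unfold ev2
  rw [Finset.sum_eq_single i, Finset.sum_eq_single j]
  · simp
  · intro b _ hb
    simp [Pi.single_apply, hb]
  · simp
  · intro b _ hb
    refine Finset.sum_eq_zero fun c _ => ?_
    simp [Pi.single_apply, hb]
  · simp

theorem WCF_ev4_M (p a₁ a₂ b₁ b₂ f : K) (u v w q : Fin l → K) :
    ev4 (fun i j k m : Fin l => (if i = j ∧ k = m then p else 0) +
      ((if i < j then a₁ else 0) + (if i = j then a₂ else 0)) +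
      ((if k < m then b₁ else 0) + (if k = m then b₂ else 0)) + f) u v w q =
    p * (ev2 WCF_I u v * ev2 WCF_I w q) + (a₁ * ev2 WCF_U u v + a₂ * ev2 WCF_I u v) * ev2 WCF_J w q +
      ev2 WCF_J u v * (b₁ * ev2 WCF_U w q + b₂ * ev2 WCF_I w q) +
      f * (ev2 WCF_J u v * ev2 WCF_J w q) := by
  have h : (fun i j k m : Fin l => (if i = j ∧ k = m then p else 0) +
      ((if i < j then a₁ else 0) + (if i = j then a₂ else 0)) +
      ((if k < m then b₁ else 0) + (if k = m then b₂ else 0)) + f) =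
      fun i j k m => (((p * WCF_I i j) * WCF_I k m +
        (a₁ * WCF_U i j + a₂ * WCF_I i j) * WCF_J k m) +
        WCF_J i j * (b₁ * WCF_U k m + b₂ * WCF_I k m)) + (f * WCF_J i j) * WCF_J k m := by
    funext i j k m
    unfold WCF_I WCF_U WCF_J
    by_cases h1 : i = j <;> by_cases h2 : k = m <;> by_cases h3 : i < j <;> by_cases h4 : k < m <;>
      simp [h1, h2, h3, h4]
  rw [h]
  rw [WCF_ev4_add, WCF_ev4_add, WCF_ev4_add, WCF_ev4_mul, WCF_ev4_mul, WCF_ev4_mul, WCF_ev4_mul]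
  rw [WCF_ev2_mul, WCF_ev2_mul, WCF_ev2_add, WCF_ev2_add, WCF_ev2_mul, WCF_ev2_mul, WCF_ev2_mul,
    WCF_ev2_mul]
  ring

theorem WCF_key (hRB : RB_stmt) (hDT : DT_stmt) (hKER : KER_stmt) (hl : 2 ≤ l)
    (p a₁ a₂ b₁ b₂ f : K) (hp : p ≠ 0) (U₁ U₂ U₃ U₄ : Submodule K (Fin l → K))
    (hd : 3 * l < Module.finrank K U₁ + Module.finrank K U₂ + Module.finrank K U₃ +
      Module.finrank K U₄) (h12 : l + 2 ≤ Module.finrank K U₁ + Module.finrank K U₂)
    (h0 : ∀ u ∈ U₁, ∀ v ∈ U₂, ∀ w ∈ U₃, ∀ q ∈ U₄,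
      p * (ev2 WCF_I u v * ev2 WCF_I w q) + (a₁ * ev2 WCF_U u v + a₂ * ev2 WCF_I u v) * ev2 WCF_J w q +
      ev2 WCF_J u v * (b₁ * ev2 WCF_U w q + b₂ * ev2 WCF_I w q) +
      f * (ev2 WCF_J u v * ev2 WCF_J w q) = 0) :
    a₁ = 0 ∧ b₁ = 0 ∧ f * p = a₂ * b₂ := by
  classical
  obtain ⟨dt1, dt2, dt3, dt4, dt5, dt6⟩ := hDT K l (by omega)
  have hle : ∀ U : Submodule K (Fin l → K), Module.finrank K U ≤ l := by
    intro U
    have := U.finrank_le
    simpa using this
  -- first step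
  set S : Submodule K (Fin 3 → K) := Submodule.span K
    {x | ∃ u ∈ U₁, ∃ v ∈ U₂, x = ![ev2 WCF_I u v, ev2 WCF_J u v, ev2 WCF_U u v]} with hS
  have hmem : (![1, 0, 0] : Fin 3 → K) ∈ S := by
    by_contra hcon
    obtain ⟨φ, hφ1, hφ2⟩ := Submodule.exists_le_ker_of_notMem hcon
    have hφ : ∀ x y z : K, φ ![x, y, z] = x * φ ![1, 0, 0] + y * φ ![0, 1, 0] + z * φ ![0, 0, 1] := by
      intro x y z
      have : (![x, y, z] : Fin 3 → K) = x • ![1, 0, 0] + y • ![0, 1, 0] + z • ![0, 0, 1] := by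
        ext i
        fin_cases i <;> simp
      rw [this, map_add, map_add, map_smul, map_smul, map_smul]
      rfl
    have h1 : ∀ u ∈ U₁, ∀ v ∈ U₂, ev2 (fun i j : Fin l =>
        (if i = j then φ ![1, 0, 0] else 0) + (if i < j then φ ![0, 0, 1] else 0) + φ ![0, 1, 0]) u v = 0 := by
      intro u hu v hv
      have h2 : (fun i j : Fin l =>
        (if i = j then φ ![1, 0, 0] else 0) + (if i < j then φ ![0, 0, 1] else 0) + φ ![0, 1, 0]) =
        fun i j => (φ ![1, 0, 0] * WCF_I i j + φ ![0, 0, 1] * WCF_U i j) + φ ![0, 1, 0] * WCF_J i j := by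
        funext i j
        unfold WCF_I WCF_U WCF_J
        by_cases h1 : i = j <;> by_cases h3 : i < j <;> simp [h1, h3]
      rw [h2, WCF_ev2_add, WCF_ev2_add, WCF_ev2_mul, WCF_ev2_mul, WCF_ev2_mul]
      have h3 := hφ (ev2 WCF_I u v) (ev2 WCF_J u v) (ev2 WCF_U u v)
      have h4 : φ ![ev2 WCF_I u v, ev2 WCF_J u v, ev2 WCF_U u v] = 0 :=
        hφ2 (Submodule.subset_span ⟨u, hu, v, hv, rfl⟩)
      rw [h4] at h3
      linear_combination -h3
    have h5 := hRB K l _ U₁ U₂ h1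
    have h6 := dt4 (φ ![1, 0, 0]) (φ ![0, 0, 1]) (φ ![0, 1, 0]) hφ1
    omega
  have h1 : ∀ w ∈ U₃, ∀ q ∈ U₄, p * ev2 WCF_I w q + a₂ * ev2 WCF_J w q = 0 := by
    intro w hw q hq
    let Λ : (Fin 3 → K) →ₗ[K] K :=
      (p * ev2 WCF_I w q + a₂ * ev2 WCF_J w q) • LinearMap.proj 0 +
      (b₁ * ev2 WCF_U w q + b₂ * ev2 WCF_I w q + f * ev2 WCF_J w q) • LinearMap.proj 1 +
      (a₁ * ev2 WCF_J w q) • LinearMap.proj 2
    have hΛ : S ≤ LinearMap.ker Λ := by
      rw [hS, Submodule.span_le]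
      rintro _ ⟨u, hu, v, hv, rfl⟩
      have h2 := h0 u hu v hv w hw q hq
      simp only [SetLike.mem_coe, LinearMap.mem_ker, Λ, LinearMap.add_apply, LinearMap.smul_apply,
        LinearMap.proj_apply, smul_eq_mul, Matrix.cons_val_zero, Matrix.cons_val_one,
        Matrix.cons_val]
      linear_combination h2
    have h3 : Λ ![1, 0, 0] = 0 := hΛ hmem
    simpa [Λ] using h3
  have h34 : Module.finrank K U₃ + Module.finrank K U₄ ≤ l + 1 := by
    have h2 : ∀ u ∈ U₃, ∀ v ∈ U₄, ev2 (fun i j : Fin l =>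
        (if i = j then p else 0) + (if i < j then (0 : K) else 0) + a₂) u v = 0 := by
      intro u hu v hv
      have h2 : (fun i j : Fin l =>
        (if i = j then p else 0) + (if i < j then (0 : K) else 0) + a₂) =
        fun i j => p * WCF_I i j + a₂ * WCF_J i j := by
        funext i j
        unfold WCF_I WCF_J
        by_cases h1 : i = j <;> simp [h1]
      rw [h2, WCF_ev2_add, WCF_ev2_mul, WCF_ev2_mul]
      exact h1 u hu v hv
    have h5 := hRB K l _ U₃ U₄ h2
    have h6 := dt4 p 0 a₂ hp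
    omega
  have hd1 := hle U₁
  have hd2 := hle U₂
  have hf1 : Module.finrank K U₁ = l := by omega
  have hf2 : Module.finrank K U₂ = l := by omega
  have hf34 : Module.finrank K U₃ + Module.finrank K U₄ = l + 1 := by omega
  have hU1 : U₁ = ⊤ := Submodule.eq_top_of_finrank_eq (by simpa using hf1)
  have hU2 : U₂ = ⊤ := Submodule.eq_top_of_finrank_eq (by simpa using hf2)
  -- second step
  have hA : ∀ w ∈ U₃, ∀ q ∈ U₄,
      b₁ * ev2 WCF_U w q + b₂ * ev2 WCF_I w q + f * ev2 WCF_J w q = 0 := by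
    intro w hw q hq
    have h2 := h0 (Pi.single ⟨1, by omega⟩ 1) (hU1 ▸ Submodule.mem_top)
      (Pi.single ⟨0, by omega⟩ 1) (hU2 ▸ Submodule.mem_top) w hw q hq
    rw [WCF_ev2_single, WCF_ev2_single, WCF_ev2_single] at h2
    simp [WCF_I, WCF_U, WCF_J] at h2
    linear_combination h2
  have hB : ∀ w ∈ U₃, ∀ q ∈ U₄, a₁ * ev2 WCF_J w q = 0 := by
    intro w hw q hq
    have h2 := h0 (Pi.single ⟨0, by omega⟩ 1) (hU1 ▸ Submodule.mem_top)
      (Pi.single ⟨1, by omega⟩ 1) (hU2 ▸ Submodule.mem_top) w hw q hq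
    rw [WCF_ev2_single, WCF_ev2_single, WCF_ev2_single] at h2
    simp [WCF_I, WCF_U, WCF_J] at h2
    linear_combination h2 - hA w hw q hq
  have hJ : ∃ w ∈ U₃, ∃ q ∈ U₄, ev2 (WCF_J : Fin l → Fin l → K) w q ≠ 0 := by
    by_contra hcon
    push Not at hcon
    have h2 : ∀ u ∈ U₃, ∀ v ∈ U₄, ev2 (fun i j : Fin l => (1 : Matrix (Fin l) (Fin l) K) i j) u v = 0 := by
      intro u hu v hv
      have h3 := h1 u hu v hv
      rw [hcon u hu v hv, mul_zero, add_zero] at h3
      have h4 := (mul_eq_zero.1 h3).resolve_left hp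
      have h5 : (fun i j : Fin l => (1 : Matrix (Fin l) (Fin l) K) i j) = WCF_I := by
        funext i j
        unfold WCF_I
        exact Matrix.one_apply
      rw [h5]
      exact h4
    have h5 := hRB K l _ U₃ U₄ h2
    have h6 : (Matrix.of (fun i j : Fin l => (1 : Matrix (Fin l) (Fin l) K) i j)).rank = l := by
      have : (Matrix.of (fun i j : Fin l => (1 : Matrix (Fin l) (Fin l) K) i j)) = 1 := rfl
      rw [this, Matrix.rank_one, Fintype.card_fin]
    omega
  obtain ⟨w₀, hw₀, q₀, hq₀, hJ0⟩ := hJ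
  have ha1 : a₁ = 0 := (mul_eq_zero.1 (hB w₀ hw₀ q₀ hq₀)).resolve_right hJ0
  have hdetrk : ∀ A : Fin l → Fin l → K, (Matrix.of A).det ≠ 0 →
      (∀ u ∈ U₃, ∀ v ∈ U₄, ev2 A u v = 0) → False := by
    intro A hdet hv
    have h5 := hRB K l _ U₃ U₄ hv
    have h6 : (Matrix.of A).rank = l := by
      have h7 : IsUnit (Matrix.of A) := (Matrix.isUnit_iff_isUnit_det _).2 (isUnit_iff_ne_zero.2 hdet)
      rw [Matrix.rank_of_isUnit _ h7, Fintype.card_fin]
    omega
  have hI : ∀ w ∈ U₃, ∀ q ∈ U₄, ev2 WCF_I w q = -(a₂ / p) * ev2 WCF_J w q := by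
    intro w hw q hq
    have h2 := h1 w hw q hq
    field_simp
    linear_combination h2
  by_cases hb1 : b₁ = 0
  · refine ⟨ha1, hb1, ?_⟩
    have h2 := hA w₀ hw₀ q₀ hq₀
    rw [hb1, zero_mul, zero_add, hI w₀ hw₀ q₀ hq₀] at h2
    have h3 : (f - b₂ * (a₂ / p)) * ev2 WCF_J w₀ q₀ = 0 := by linear_combination h2
    have h4 := (mul_eq_zero.1 h3).resolve_right hJ0
    have h5 : f = b₂ * (a₂ / p) := by linear_combination h4
    rw [h5]
    field_simp
  · exfalso
    set κ : K := (b₂ * (a₂ / p) - f) / b₁ with hκ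
    have hU : ∀ w ∈ U₃, ∀ q ∈ U₄, ev2 WCF_U w q = κ * ev2 WCF_J w q := by
      intro w hw q hq
      have h2 := hA w hw q hq
      rw [hI w hw q hq] at h2
      have h3 : b₁ * ev2 WCF_U w q = b₁ * (κ * ev2 WCF_J w q) := by
        have h4 : b₁ * κ = b₂ * (a₂ / p) - f := by
          rw [hκ]
          field_simp
        linear_combination h2 - (ev2 WCF_J w q) * h4
      exact mul_left_cancel₀ hb1 h3
    have hκ0 : κ = 0 := by
      by_contra hne
      refine hdetrk _ (dt2 κ hne) ?_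
      intro u hu v hv
      have h2 : (fun i j : Fin l => (if i < j then (1 : K) else 0) - κ) =
          fun i j => WCF_U i j + (-κ) * WCF_J i j := by
        funext i j
        unfold WCF_U WCF_J
        ring
      rw [h2, WCF_ev2_add, WCF_ev2_mul, hU u hu v hv]
      ring
    have hU0 : ∀ w ∈ U₃, ∀ q ∈ U₄, ev2 WCF_U w q = (0 : K) := by
      intro w hw q hq
      rw [hU w hw q hq, hκ0, zero_mul]
    have hlam : -(a₂ / p) = 1 := by
      by_contra hne
      refine hdetrk _ (dt1 (-(a₂ / p)) hne) ?_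
      intro u hu v hv
      have h2 : (fun i j : Fin l => (if i ≤ j then (1 : K) else 0) - (-(a₂ / p))) =
          fun i j => (WCF_I i j + WCF_U i j) + (a₂ / p) * WCF_J i j := by
        funext i j
        unfold WCF_U WCF_J WCF_I
        rcases lt_trichotomy i j with h | h | h
        · simp [h, h.le, h.ne]
        · simp [h]
        · simp [h, not_le.2 h, h.ne', not_lt.2 h.le]
      rw [h2, WCF_ev2_add, WCF_ev2_add, WCF_ev2_mul, hU0 u hu v hv, hI u hu v hv]
      ring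
    obtain ⟨l', rfl⟩ : ∃ l', l = l' + 1 := ⟨l - 1, by omega⟩
    obtain ⟨k1, k2⟩ := hKER K l' U₃ U₄ (by omega)
    obtain ⟨k3, k4⟩ := k1 (fun u hu v hv => hU0 u hu v hv)
    obtain ⟨k5, k6⟩ := k2 (fun u hu v hv => by
      have h2 : (fun i j : Fin (l' + 1) => if j < i then (1 : K) else 0) =
          fun i j => (WCF_J i j + (-1) * WCF_I i j) + (-1) * WCF_U i j := by
        funext i j
        unfold WCF_U WCF_J WCF_I
        rcases lt_trichotomy i j with h | h | h
        · simp [h, h.ne, not_lt.2 h.le]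
        · simp [h]
        · simp [h, h.ne', not_lt.2 h.le]
      rw [h2, WCF_ev2_add, WCF_ev2_add, WCF_ev2_mul, WCF_ev2_mul, hU0 u hu v hv, hI u hu v hv, hlam]
      ring)
    have h7 := hU0 _ k5 _ k6
    rw [WCF_ev2_single] at h7
    unfold WCF_U at h7
    rw [if_pos (by
      rw [Fin.lt_def]
      simp
      omega)] at h7
    exact one_ne_zero h7

end WCF

theorem WCF (hRB : RB_stmt) (hDT : DT_stmt) (hKER : KER_stmt) : WCF_stmt := by
  intro K _ l hl p a₁ a₂ b₁ b₂ f hp hne U₁ U₂ U₃ U₄ hd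
  rw [Fintype.card_fin] at hd
  by_contra hcon
  push Not at hcon
  have h0 : ∀ u ∈ U₁, ∀ v ∈ U₂, ∀ w ∈ U₃, ∀ q ∈ U₄,
      p * (ev2 WCF_I u v * ev2 WCF_I w q) + (a₁ * ev2 WCF_U u v + a₂ * ev2 WCF_I u v) * ev2 WCF_J w q +
      ev2 WCF_J u v * (b₁ * ev2 WCF_U w q + b₂ * ev2 WCF_I w q) +
      f * (ev2 WCF_J u v * ev2 WCF_J w q) = 0 := by
    intro u hu v hv w hw q hq
    have := hcon u hu v hv w hw q hq
    rwa [WCF_ev4_M] at this
  by_cases h12 : l + 2 ≤ Module.finrank K U₁ + Module.finrank K U₂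
  · exact hne (WCF_key hRB hDT hKER hl p a₁ a₂ b₁ b₂ f hp U₁ U₂ U₃ U₄ hd h12 h0)
  · have h34 : l + 2 ≤ Module.finrank K U₃ + Module.finrank K U₄ := by omega
    have h := WCF_key hRB hDT hKER hl p b₁ b₂ a₁ a₂ f hp U₃ U₄ U₁ U₂ (by omega) h34 (by
      intro u hu v hv w hw q hq
      have := h0 w hw q hq u hu v hv
      linear_combination this)
    exact hne ⟨h.2.1, h.1, by rw [h.2.2, mul_comm]⟩

end Pool.Agent.helper35.MR
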